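import Pool.Agent.Helper58.TasepFinal

set_option autoImplicit false

/-! Problem MP_01b7fc_pr, Q1: the claim on the maximum is false for `n = 6`, `k = 2`.
The definitions used in the statement are in `Pool/Agent/Helper58/TasepDefs.lean`. -/

namespace Pool.Agent.Results.MP_01b7fc_pr.MaximumClaimFails

open Pool.Agent.Helper58.Tasep

/-- For the multispecies TASEP on the ring of `6` sites with inverse rates
`t = (4, 2, 1, 16, 512, 256)` the stationary distribution `π` exists and is unique, and there are
positions `e` of the two smallest classes such that some arrangement `τ` of the four large classes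
has, conditionally on these positions, a strictly larger probability than every cyclically
ascending arrangement. -/
theorem result :
    ∃ π : Word 6 → ℝ, (∀ π' : Word 6 → ℝ, IsStationary ![4, 2, 1, 16, 512, 256] π' ↔ π' = π) ∧
      ∃ e : {i : Fin 6 // i.val < 2} → Fin 6, Function.Injective e ∧ 0 < prob π (placed e) ∧
        ∃ τ : List (Fin 6), IsArrangement 2 τ ∧
          ∀ σ : List (Fin 6), CyclicallyAscending 2 σ → arrProb π e σ < arrProb π e τ := by
  have hpos := pos_six xMax wMax chkMax_all
  have hbal : Balanced (fun i : Fin 6 => 1 / (![4, 2, 1, 16, 512, 256] : Fin 6 → ℝ) i)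
      (fun w => ((vec wMax w : ℕ) : ℝ)) := by
    refine balanced_scale (1 / 512) _ _ _ ?_ (balanced_six xMax wMax chkMax_all)
    intro i
    fin_cases i <;> simp [xMax] <;> norm_num
  have hst := stationary_of_weight _ _ hpos hbal
  have ht : ∀ i, 0 < (![4, 2, 1, 16, 512, 256] : Fin 6 → ℝ) i := by
    intro i
    fin_cases i <;> simp
  have hZ : 0 < ∑ w : Word 6, ((vec wMax w : ℕ) : ℝ) :=
    Finset.sum_pos (fun w _ => hpos w) ⟨1, Finset.mem_univ _⟩
  set π : Word 6 → ℝ := fun w => (∑ w, ((vec wMax w : ℕ) : ℝ))⁻¹ * ((vec wMax w : ℕ) : ℝ) with hπ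
  have hπpos : ∀ w, 0 < π w := fun w => mul_pos (inv_pos.2 hZ) (hpos w)
  have hE : 0 < prob π (placed (place 3)) := by
    refine prob_pos π hπpos _ (mkWord ![0, 3, 4, 1, 2, 5] ![0, 3, 4, 1, 2, 5] (by decide)
      (by decide)) ?_
    rw [mem_placed_iff]
    exact ⟨rfl, rfl⟩
  refine ⟨π, fun π' => ⟨fun h' => stationary_unique _ ht 1 _ certificate_six π π' hst h',
    fun h' => h' ▸ hst⟩, place 3, place_injective 3 (by decide), hE, [3, 4, 2, 5], ?_, ?_⟩
  · unfold IsArrangement
    rw [large_six]
    decide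
  · intro σ hσ
    rw [arrProb_three π [3, 4, 2, 5] (mkWord ![0, 3, 4, 1, 2, 5] ![0, 3, 4, 1, 2, 5] (by decide)
      (by decide)) rfl rfl rfl]
    have key : ∀ w1 w2 : Word 6, vec wMax w1 < vec wMax w2 →
        π w1 / prob π (placed (place 3)) < π w2 / prob π (placed (place 3)) := by
      intro w1 w2 h12
      refine div_lt_div_of_pos_right ?_ hE
      exact mul_lt_mul_of_pos_left (by exact_mod_cast h12) (inv_pos.2 hZ)
    rcases asc_cases σ hσ with rfl | rfl | rfl | rfl
    · rw [arrProb_three π [2, 3, 4, 5] (mkWord ![0, 2, 3, 1, 4, 5] ![0, 3, 1, 2, 4, 5] (by decide)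
        (by decide)) rfl rfl rfl]
      exact key _ _ (by decide +kernel)
    · rw [arrProb_three π [3, 4, 5, 2] (mkWord ![0, 3, 4, 1, 5, 2] ![0, 3, 5, 1, 2, 4] (by decide)
        (by decide)) rfl rfl rfl]
      exact key _ _ (by decide +kernel)
    · rw [arrProb_three π [4, 5, 2, 3] (mkWord ![0, 4, 5, 1, 2, 3] ![0, 3, 4, 5, 1, 2] (by decide)
        (by decide)) rfl rfl rfl]
      exact key _ _ (by decide +kernel)
    · rw [arrProb_three π [5, 2, 3, 4] (mkWord ![0, 5, 2, 1, 3, 4] ![0, 3, 2, 4, 5, 1] (by decide)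
        (by decide)) rfl rfl rfl]
      exact key _ _ (by decide +kernel)

end Pool.Agent.Results.MP_01b7fc_pr.MaximumClaimFails
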